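import Pool.Agent.MP_e5a18e_gt.H56.Space

set_option autoImplicit false

namespace Pool.Agent.Results.MP_e5a18e_gt.Omega

/-- A first countable Tychonoff Lindelöf space whose countably infinite power and whose square are
paracompact, while the square is not Lindelöf. -/
theorem result : ∃ (X : Type) (_ : TopologicalSpace X),
    T1Space X ∧ CompletelyRegularSpace X ∧ FirstCountableTopology X ∧ LindelofSpace X ∧
      ParacompactSpace (ℕ → X) ∧ ParacompactSpace (X × X) ∧ ¬ LindelofSpace (X × X) := by
  obtain ⟨X, t, h1, h2, h3, h4, h5, h6⟩ := Pool.Agent.MP_e5a18e_gt.H56.main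
  exact ⟨X, t, inferInstance, h1.toCompletelyRegularSpace, h2, h3, h4, h5, h6⟩

end Pool.Agent.Results.MP_e5a18e_gt.Omega
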